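import Pool.Agent.Helper20.EQ.St1
import Pool.Agent.Helper79.RG.M_MB
import Pool.Agent.Helper80.LM.M_FA
import Pool.Agent.Helper84.LM.M_FS
import Pool.Agent.Helper29.LM.M_PH
import Pool.Agent.Helper4.LM.M_BBC

/-!
# Project EQ, module KD (MP_cb927e_an)
-/

set_option autoImplicit false

open MeasureTheory Set Filter Topology
open scoped ENNReal RealInnerProductSpace

namespace Pool.Agent.Helper80.EQ

open Pool.Agent.Helper68.LM (Pl BB Bd Av HL ft fm DQ)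
open Pool.Agent.Helper20.RG Pool.Agent.Helper20.EQ
open Pool.Agent.Helper79.RG (kap Zh_norm kap_le kap_sub kap_big)

theorem kap_diff (hPT : StPT) (hSINC : StSINC) (m m' : ℕ) (hm : m' ≤ m) (ξ : Pl) (hξ : ξ ≠ 0) :
    |kap m ξ - kap m' ξ| ≤
      100 * (min 1 (‖ξ‖ * (2 : ℝ) ^ (-(m' : ℤ))) * min 1 ((2 : ℝ) ^ m / ‖ξ‖)) := by
  obtain ⟨n0, n1, n2, -⟩ := hPT.2.2.1 ξ
  have hp := Real.pi_pos
  have hp4 := Real.pi_lt_four
  have hk1 := kap_le hSINC m ξ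
  have hk2 := kap_le hSINC m' ξ
  have hn : 0 < ‖ξ‖ := norm_pos_iff.mpr hξ
  have hdiff : |kap m ξ - kap m' ξ| ≤ 2 := by
    have := abs_sub (kap m ξ) (kap m' ξ)
    linarith
  have hpow : (2 : ℝ) ^ (-(m : ℤ)) ≤ (2 : ℝ) ^ (-(m' : ℤ)) :=
    zpow_le_zpow_right₀ (by norm_num) (by
      have : (m' : ℤ) ≤ m := by exact_mod_cast hm
      linarith)
  have hpowpos : 0 < (2 : ℝ) ^ (-(m : ℤ)) := by positivity
  have hpow2 : (2 : ℝ) ^ m' ≤ (2 : ℝ) ^ m := pow_le_pow_right₀ (by norm_num) hm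
  have ha : |kap m ξ - kap m' ξ| ≤ 100 * (‖ξ‖ * (2 : ℝ) ^ (-(m' : ℤ))) := by
    have h1 := kap_sub hSINC m ξ
    have h2 := kap_sub hSINC m' ξ
    have h3 : |kap m ξ - kap m' ξ| ≤ |1 - kap m ξ| + |1 - kap m' ξ| := by
      have : kap m ξ - kap m' ξ = (1 - kap m' ξ) - (1 - kap m ξ) := by ring
      rw [this]
      have := abs_sub (1 - kap m' ξ) (1 - kap m ξ)
      linarith
    set t := (2 : ℝ) ^ (-(m : ℤ)) with ht
    set t' := (2 : ℝ) ^ (-(m' : ℤ)) with ht'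
    have ht'pos : 0 < t' := lt_of_lt_of_le hpowpos hpow
    have c1 : 2 * Real.pi * t * |ξ 0| ≤ 2 * Real.pi * t' * ‖ξ‖ := by gcongr
    have c2 : 2 * Real.pi * t * |ξ 1| ≤ 2 * Real.pi * t' * ‖ξ‖ := by gcongr
    have c3 : 2 * Real.pi * t' * |ξ 0| ≤ 2 * Real.pi * t' * ‖ξ‖ := by gcongr
    have c4 : 2 * Real.pi * t' * |ξ 1| ≤ 2 * Real.pi * t' * ‖ξ‖ := by gcongr
    have h4 : |kap m ξ - kap m' ξ| ≤ 8 * Real.pi * t' * ‖ξ‖ := by linarith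
    have h5 : 8 * Real.pi * t' * ‖ξ‖ ≤ 100 * (‖ξ‖ * t') := by
      have : 0 ≤ ‖ξ‖ * t' := by positivity
      nlinarith
    linarith
  have hb : |kap m ξ - kap m' ξ| ≤ 100 * ((2 : ℝ) ^ m / ‖ξ‖) := by
    have h1 := kap_big hSINC m ξ
    have h2 := kap_big hSINC m' ξ
    have d1 : |kap m ξ| * ‖ξ‖ ≤ (2 : ℝ) ^ m :=
      (mul_le_mul_of_nonneg_left n2 (abs_nonneg _)).trans h1
    have d2 : |kap m' ξ| * ‖ξ‖ ≤ (2 : ℝ) ^ m :=
      ((mul_le_mul_of_nonneg_left n2 (abs_nonneg _)).trans h2).trans hpow2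
    have h3 : |kap m ξ - kap m' ξ| ≤ |kap m ξ| + |kap m' ξ| := abs_sub _ _
    have h4 : |kap m ξ - kap m' ξ| * ‖ξ‖ ≤ 100 * (2 : ℝ) ^ m := by
      calc |kap m ξ - kap m' ξ| * ‖ξ‖ ≤ (|kap m ξ| + |kap m' ξ|) * ‖ξ‖ := by gcongr
        _ = |kap m ξ| * ‖ξ‖ + |kap m' ξ| * ‖ξ‖ := by ring
        _ ≤ 100 * (2 : ℝ) ^ m := by
          have : 0 < (2 : ℝ) ^ m := by positivity
          linarith
    rw [← mul_div_assoc, le_div_iff₀ hn]
    exact h4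
  rcases le_or_gt ‖ξ‖ ((2 : ℝ) ^ m) with h | h
  · have h1 : min 1 ((2 : ℝ) ^ m / ‖ξ‖) = 1 := min_eq_left ((one_le_div hn).mpr h)
    rw [h1, mul_one]
    rcases min_cases (1 : ℝ) (‖ξ‖ * (2 : ℝ) ^ (-(m' : ℤ))) with ⟨h2, -⟩ | ⟨h2, -⟩
    · rw [h2]; linarith
    · rw [h2]; exact ha
  · have h1 : min 1 (‖ξ‖ * (2 : ℝ) ^ (-(m' : ℤ))) = 1 := by
      apply min_eq_left
      rw [zpow_neg, zpow_natCast, ← div_eq_mul_inv, one_le_div (by positivity)]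
      exact (hpow2.trans h.le)
    rw [h1, one_mul]
    rcases min_cases (1 : ℝ) ((2 : ℝ) ^ m / ‖ξ‖) with ⟨h2, -⟩ | ⟨h2, -⟩
    · rw [h2]; linarith
    · rw [h2]; exact hb

/-- Module KD. -/
theorem hKD (hPT : StPT) (hSINC : StSINC) (hMEA : StMEA) : StKD := by
  refine ⟨200, by norm_num, ?_, ?_⟩
  · intro s c m m' l ξ hm hl hξ
    rw [Zh_norm]
    have h1 := kap_diff hPT hSINC m m' hm ξ hξ
    have hA := hSINC.1 (Real.pi * l * ⟪E s, ξ⟫)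
    have hp := Real.pi_gt_three
    have h2 : |Real.sinc (Real.pi * l * ⟪E s, ξ⟫)| ≤ 2 * (1 / (1 + |⟪E s, ξ⟫|)) := by
      have hb : 0 ≤ |⟪E s, ξ⟫| := abs_nonneg _
      have h3 := hA.2.1
      rw [abs_mul] at h3
      have e : |Real.pi * l * ⟪E s, ξ⟫| = Real.pi * l * |⟪E s, ξ⟫| := by
        rw [abs_mul, abs_of_pos (by positivity)]
      rw [e] at h3
      set x := |Real.sinc (Real.pi * l * ⟪E s, ξ⟫)| with hx
      have hx0 : 0 ≤ x := abs_nonneg _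
      have h4 : x * |⟪E s, ξ⟫| ≤ 1 := by
        have h5 : 1 * (x * |⟪E s, ξ⟫|) ≤ (Real.pi * l) * (x * |⟪E s, ξ⟫|) := by
          apply mul_le_mul_of_nonneg_right _ (by positivity)
          nlinarith
        calc x * |⟪E s, ξ⟫| = 1 * (x * |⟪E s, ξ⟫|) := by ring
          _ ≤ (Real.pi * l) * (x * |⟪E s, ξ⟫|) := h5
          _ = Real.pi * l * |⟪E s, ξ⟫| * x := by ring
          _ ≤ 1 := h3
      rw [mul_one_div, le_div_iff₀ (by positivity)]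
      have h6 : x ≤ 1 := hA.1
      calc x * (1 + |⟪E s, ξ⟫|) = x + x * |⟪E s, ξ⟫| := by ring
        _ ≤ 2 := by linarith
    have hnn : 0 ≤ |kap m ξ - kap m' ξ| := abs_nonneg _
    calc |Real.sinc (Real.pi * l * ⟪E s, ξ⟫)| * |kap m ξ - kap m' ξ| ≤
        (2 * (1 / (1 + |⟪E s, ξ⟫|))) *
          (100 * (min 1 (‖ξ‖ * (2 : ℝ) ^ (-(m' : ℤ))) * min 1 ((2 : ℝ) ^ m / ‖ξ‖))) :=
          mul_le_mul h2 h1 hnn (by positivity)
      _ = 200 * Pso s m m' ξ := by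
          unfold Pso
          ring
  · intro m m' k g ξ hm hg hξ
    have hζ : (2 : ℝ) ^ k • ξ ≠ 0 := smul_ne_zero (by positivity) hξ
    have h1 := kap_diff hPT hSINC m m' hm ((2 : ℝ) ^ k • ξ) hζ
    have hFS := Pool.Agent.Helper84.LM.hFS Pool.Agent.Helper29.LM.hPH
    have hBBC := Pool.Agent.Helper4.LM.hBBC Pool.Agent.Helper29.LM.hPH
    have hbx := hMEA.1
    have hft : ∀ n : ℕ, ft (Av bx (2 * (2 : ℝ) ^ (k - (n : ℤ))) g) ξ =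
        ((kap n ((2 : ℝ) ^ k • ξ) : ℝ) : ℂ) * ft g ξ := by
      intro n
      rw [Pool.Agent.Helper80.LM.hFA bx 1 1 _ g hbx.1 (by positivity) hg ξ, hbx.2.2]
      congr 2
      unfold kap
      have e0 : ((2 * (2 : ℝ) ^ (k - (n : ℤ))) • ξ) 0 = 2 * (2 : ℝ) ^ (k - (n : ℤ)) * ξ 0 := rfl
      have e1 : ((2 * (2 : ℝ) ^ (k - (n : ℤ))) • ξ) 1 = 2 * (2 : ℝ) ^ (k - (n : ℤ)) * ξ 1 := rfl
      have e2 : ((2 : ℝ) ^ k • ξ) 0 = (2 : ℝ) ^ k * ξ 0 := rfl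
      have e3 : ((2 : ℝ) ^ k • ξ) 1 = (2 : ℝ) ^ k * ξ 1 := rfl
      rw [e0, e1, e2, e3, sub_eq_add_neg, zpow_add₀ (by norm_num : (2 : ℝ) ≠ 0)]
      congr 2 <;> ring
    have hBB : ∀ n : ℕ, BB (Av bx (2 * (2 : ℝ) ^ (k - (n : ℤ))) g) := fun n =>
      hBBC.2.2.1 bx 1 1 _ g hbx.1 (by positivity) hg
    rw [hFS.2.2.2 _ _ (hBB m) (hBB m') ξ, hft m, hft m', ← sub_mul, norm_mul,
      ← Complex.ofReal_sub, Complex.norm_real, Real.norm_eq_abs]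
    apply mul_le_mul_of_nonneg_right _ (norm_nonneg _)
    refine h1.trans ?_
    apply mul_le_mul_of_nonneg_right (by norm_num)
    positivity

end Pool.Agent.Helper80.EQ
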